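import Pool.Agent.H95.FH.Defs

open MvPolynomial
open H95.FG H95.FH

namespace H38.FH

theorem dt_comm {n : ℕ} (a b : Fin n → ℂ) : dt a b = dt b a := by
  unfold dt
  exact Finset.sum_congr rfl fun k _ => mul_comm _ _

theorem dt_add {n : ℕ} (z a b : Fin n → ℂ) : dt z (a + b) = dt z a + dt z b := by
  simp [dt, mul_add, Finset.sum_add_distrib]

theorem dt_smul {n : ℕ} (c : ℂ) (z a : Fin n → ℂ) : dt z (c • a) = c * dt z a := by
  simp only [dt, Pi.smul_apply, smul_eq_mul, Finset.mul_sum]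
  exact Finset.sum_congr rfl fun k _ => by ring

theorem dt_add' {n : ℕ} (z a b : Fin n → ℂ) : dt (a + b) z = dt a z + dt b z := by
  rw [dt_comm, dt_add, dt_comm z a, dt_comm z b]

theorem dt_smul' {n : ℕ} (c : ℂ) (z a : Fin n → ℂ) : dt (c • a) z = c * dt a z := by
  rw [dt_comm, dt_smul, dt_comm z a]

/-- a vector orthogonal to the hyperplane `z^⊥` is a multiple of `z` -/
theorem parl {n : ℕ} (z v : Fin n → ℂ) (hz : z ≠ 0) (h : ∀ Y, dt z Y = 0 → dt v Y = 0) :
    ∃ c : ℂ, v = c • z := by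
  classical
  obtain ⟨j, hj⟩ : ∃ j, z j ≠ 0 := by
    by_contra hcon
    push Not at hcon
    exact hz (funext hcon)
  refine ⟨v j / z j, ?_⟩
  funext i
  have key : v i * z j - v j * z i = 0 := by
    have h1 := h (z j • Pi.single i 1 - z i • Pi.single j 1) (by
      simp only [dt, Pi.sub_apply, Pi.smul_apply, smul_eq_mul, mul_sub, Finset.sum_sub_distrib]
      simp [Pi.single_apply]
      ring)
    simp only [dt, Pi.sub_apply, Pi.smul_apply, smul_eq_mul, mul_sub, Finset.sum_sub_distrib] at h1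
    simp [Pi.single_apply] at h1
    linear_combination h1
  rw [Pi.smul_apply, smul_eq_mul]
  field_simp
  linear_combination key

theorem continuous_eval_line {n : ℕ} (A : MvPolynomial (Fin n ⊕ Fin n) ℂ) (z Y U : Fin n → ℂ) :
    Continuous (fun t : ℂ => AA A z (Y + t • U)) := by
  unfold AA
  apply (MvPolynomial.continuous_eval A).comp
  apply continuous_pi
  intro i
  rcases i with k | k
  · simp only [Sum.elim_inl]; exact continuous_const
  · simp only [Sum.elim_inr, Pi.add_apply, Pi.smul_apply, smul_eq_mul]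
    fun_prop

/-- nonzero parameters close to a point where a continuous function does not vanish -/
theorem ne_near (f : ℂ → ℂ) (hf : Continuous f) (h0 : f 0 ≠ 0) : ∃ t : ℂ, t ≠ 0 ∧ f t ≠ 0 := by
  have h1 : ∀ᶠ t in nhds (0 : ℂ), f t ≠ 0 := hf.continuousAt.eventually_ne h0
  have h2 : ∀ᶠ t in nhdsWithin (0 : ℂ) {0}ᶜ, f t ≠ 0 := h1.filter_mono nhdsWithin_le_nhds
  have h3 : ∀ᶠ t in nhdsWithin (0 : ℂ) {0}ᶜ, t ≠ 0 := eventually_mem_nhdsWithin
  obtain ⟨t, ht⟩ := (h2.and h3).exists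
  exact ⟨t, ht.2, ht.1⟩

/-- if `(v·Y) f(Y) = 0` on `z^⊥` with `f` not identically zero there, then `v·Y = 0` on `z^⊥` -/
theorem prod_zero {n : ℕ} (A : MvPolynomial (Fin n ⊕ Fin n) ℂ) (z v : Fin n → ℂ)
    (h : ∀ Y, dt z Y = 0 → dt v Y * AA A z Y = 0) (h1 : ∃ Y, dt z Y = 0 ∧ AA A z Y ≠ 0) :
    ∀ Y, dt z Y = 0 → dt v Y = 0 := by
  intro Y hY
  obtain ⟨Y1, hY1, hA1⟩ := h1
  have h2 : dt v Y1 = 0 := (mul_eq_zero.mp (h Y1 hY1)).resolve_right hA1
  obtain ⟨t, ht0, ht⟩ := ne_near (fun t : ℂ => AA A z (Y1 + t • Y)) (continuous_eval_line A z Y1 Y)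
    (by simpa using hA1)
  have h3 := h (Y1 + t • Y) (by rw [dt_add, dt_smul, hY1, hY]; ring)
  have h4 := (mul_eq_zero.mp h3).resolve_right ht
  rw [dt_add, dt_smul, h2, zero_add] at h4
  exact (mul_eq_zero.mp h4).resolve_left ht0

theorem dp_smul {n m : ℕ} (p : Fin m → MvPolynomial (Fin n) ℂ) (c : ℂ) (v y : Fin n → ℂ) :
    dp p (c • v) y = c • dp p v y := by
  funext j
  simp only [dp, Pi.smul_apply, smul_eq_mul, Finset.mul_sum]
  exact Finset.sum_congr rfl fun k _ => by ring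

theorem dp_sub {n m : ℕ} (p : Fin m → MvPolynomial (Fin n) ℂ) (u v y : Fin n → ℂ) :
    dp p (u - v) y = dp p u y - dp p v y := by
  funext j
  simp only [dp, Pi.sub_apply, sub_mul, Finset.sum_sub_distrib]

theorem t_INJ (hS : S_SWAP) (hB : S_BAS) (hP : S_PAIR) : S_INJ := by
  intro m d p A hC z hz hY v hv
  obtain ⟨hC', hAA, -, -, hcc, -, -⟩ := hS m d p A hC
  obtain ⟨-, hhom, -, -, -, hE, -, -⟩ := hB m d p A hC
  have hz0 : z ≠ 0 := by
    intro h
    apply hz
    have := hhom 0 z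
    rw [h, smul_zero] at this
    rw [h, this, zero_pow (by omega), zero_smul]
  have hprod : ∀ Y, dt z Y = 0 → dt v Y * AA A z Y = 0 := by
    intro Y hzY
    have h1 := (hP 3 m (cp p) (sw A) hC'.sys Y z v 0 (by
      have := hzY
      rw [dt_comm] at this
      exact this) (by simp)).1
    have h2 : (fun j => cj (cp p j)) = p := hcc
    rw [h2, hv, hAA] at h1
    have h3 : ∑ k, Y k * v k = dt v Y := by rw [dt_comm]; rfl
    rw [h3] at h1
    rw [← h1]
    simp
  obtain ⟨c, hc⟩ := parl z v hz0 (prod_zero A z v hprod hY)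
  rw [hc, dp_smul, hE, smul_smul] at hv
  have hd : ((d : ℂ) + 1) ≠ 0 := by exact_mod_cast Nat.succ_ne_zero d
  have h4 := (smul_eq_zero.mp hv).resolve_right hz
  have h5 := (mul_eq_zero.mp h4).resolve_right hd
  rw [hc, h5, zero_smul]

end H38.FH
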