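import Pool.Agent.H38.FH.SIM
import Pool.Agent.H12.FG.Col

open MvPolynomial
open H95.FG H95.FH

namespace H38.FH

theorem bl_add_left (M : Matrix (Fin 3) (Fin 3) ℂ) (a b Y : Fin 3 → ℂ) :
    bl M (a + b) Y = bl M a Y + bl M b Y := by
  simp only [bl, Pi.add_apply, add_mul, Finset.sum_add_distrib]

theorem bl_smul_left (M : Matrix (Fin 3) (Fin 3) ℂ) (c : ℂ) (a Y : Fin 3 → ℂ) :
    bl M (c • a) Y = c * bl M a Y := by
  simp only [bl, Pi.smul_apply, smul_eq_mul, Finset.mul_sum, mul_assoc]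

theorem bl_add_right (M : Matrix (Fin 3) (Fin 3) ℂ) (a b Y : Fin 3 → ℂ) :
    bl M Y (a + b) = bl M Y a + bl M Y b := by
  simp only [bl, Pi.add_apply, mul_add, Finset.sum_add_distrib]

theorem bl_smul_right (M : Matrix (Fin 3) (Fin 3) ℂ) (c : ℂ) (a Y : Fin 3 → ℂ) :
    bl M Y (c • a) = c * bl M Y a := by
  simp only [bl, Pi.smul_apply, smul_eq_mul, Finset.mul_sum]
  exact Finset.sum_congr rfl fun k _ => Finset.sum_congr rfl fun l _ => by ring

theorem bl_comm (M : Matrix (Fin 3) (Fin 3) ℂ) (hM : M.IsSymm) (a b : Fin 3 → ℂ) :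
    bl M a b = bl M b a := by
  unfold bl
  rw [Finset.sum_comm]
  refine Finset.sum_congr rfl fun k _ => Finset.sum_congr rfl fun l _ => ?_
  rw [← hM.apply k l]
  ring

theorem bl_comb (M : Matrix (Fin 3) (Fin 3) ℂ) (hM : M.IsSymm) (a b : Fin 3 → ℂ) (s t : ℂ) :
    bl M (s • a + t • b) (s • a + t • b) = s ^ 2 * bl M a a + 2 * s * t * bl M a b + t ^ 2 * bl M b b := by
  rw [bl_add_left, bl_add_right, bl_add_right]
  simp only [bl_smul_left, bl_smul_right]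
  rw [bl_comm M hM b a]
  ring

/-- the derivative of a quadratic form -/
theorem quad_deriv (A : Q3) (z : Fin 3 → ℂ) (Q : Matrix (Fin 3) (Fin 3) ℂ) (hQ : Q.IsSymm)
    (hq : ∀ Y, AA A z Y = bl Q Y Y) (Y U : Fin 3 → ℂ) : dAY A U z Y = 2 * bl Q Y U := by
  obtain ⟨g, hg, hg'⟩ := H12.FG.line_poly A (Sum.elim z Y) (Sum.elim 0 U)
  have he : ∀ r : ℂ, (fun i => (Sum.elim z Y : Fin 3 ⊕ Fin 3 → ℂ) i + r * (Sum.elim 0 U : Fin 3 ⊕ Fin 3 → ℂ) i) =
      Sum.elim z (Y + r • U) := by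
    intro r
    funext i
    rcases i with k | k
    · simp
    · simp
  have hg2 : g = Polynomial.C (bl Q Y Y) + Polynomial.C (2 * bl Q Y U) * Polynomial.X +
      Polynomial.C (bl Q U U) * Polynomial.X ^ 2 := by
    apply Polynomial.funext
    intro r
    rw [hg, he]
    have h1 : AA A z (Y + r • U) = bl Q ((1 : ℂ) • Y + r • U) ((1 : ℂ) • Y + r • U) := by
      rw [one_smul]; exact hq _
    rw [bl_comb Q hQ] at h1
    unfold AA at h1
    rw [h1]
    simp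
    ring
  have h2 := hg' 0
  rw [hg2, he, zero_smul, add_zero, Fintype.sum_sum_type] at h2
  simp only [Sum.elim_inl, Sum.elim_inr, Pi.zero_apply, zero_mul, Finset.sum_const_zero, zero_add] at h2
  unfold dAY
  rw [← h2]
  simp

theorem exists_perp (z Y : Fin 3 → ℂ) (hz : z ≠ 0) : ∃ W, dt z W = 0 ∧ ∀ c : ℂ, W ≠ c • Y := by
  by_contra hcon
  push Not at hcon
  have h3 : z 0 ≠ 0 ∨ z 1 ≠ 0 ∨ z 2 ≠ 0 := by
    by_contra h
    push Not at h
    apply hz
    funext i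
    fin_cases i
    · exact h.1
    · exact h.2.1
    · exact h.2.2
  rcases h3 with h | h | h
  · obtain ⟨c1, h1⟩ := hcon ![-z 1, z 0, 0] (by simp [dt, Fin.sum_univ_three]; ring)
    obtain ⟨c2, h2⟩ := hcon ![-z 2, 0, z 0] (by simp [dt, Fin.sum_univ_three]; ring)
    have a1 := congrFun h1 1
    have a2 := congrFun h1 2
    have a3 := congrFun h2 2
    simp at a1 a2 a3
    rcases a2 with a2 | a2
    · rw [a2, zero_mul] at a1; exact h a1
    · rw [a2, mul_zero] at a3; exact h a3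
  · obtain ⟨c1, h1⟩ := hcon ![z 1, -z 0, 0] (by simp [dt, Fin.sum_univ_three]; ring)
    obtain ⟨c2, h2⟩ := hcon ![0, -z 2, z 1] (by simp [dt, Fin.sum_univ_three]; ring)
    have a1 := congrFun h1 0
    have a2 := congrFun h1 2
    have a3 := congrFun h2 2
    simp at a1 a2 a3
    rcases a2 with a2 | a2
    · rw [a2, zero_mul] at a1; exact h a1
    · rw [a2, mul_zero] at a3; exact h a3
  · obtain ⟨c1, h1⟩ := hcon ![z 2, 0, -z 0] (by simp [dt, Fin.sum_univ_three]; ring)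
    obtain ⟨c2, h2⟩ := hcon ![0, z 2, -z 1] (by simp [dt, Fin.sum_univ_three]; ring)
    have a1 := congrFun h1 0
    have a2 := congrFun h1 1
    have a3 := congrFun h2 1
    simp at a1 a2 a3
    rcases a2 with a2 | a2
    · rw [a2, zero_mul] at a1; exact h a1
    · rw [a2, mul_zero] at a3; exact h a3

theorem continuous_eval_line' {n : ℕ} (A : MvPolynomial (Fin n ⊕ Fin n) ℂ) (v u Y : Fin n → ℂ) :
    Continuous (fun t : ℂ => AA A (v + t • u) Y) := by
  unfold AA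
  apply (MvPolynomial.continuous_eval A).comp
  apply continuous_pi
  intro i
  rcases i with k | k
  · simp only [Sum.elim_inl, Pi.add_apply, Pi.smul_apply, smul_eq_mul]
    fun_prop
  · simp only [Sum.elim_inr]; exact continuous_const

theorem dens {n : ℕ} (A : MvPolynomial (Fin n ⊕ Fin n) ℂ) (a b b' : Fin n → ℂ)
    (h1 : ∃ v1, dt v1 a = 0 ∧ dt v1 b ≠ 0) (h : ∀ v, dt v a = 0 → dt v b * AA A v b' = 0) :
    ∀ v, dt v a = 0 → AA A v b' = 0 := by
  intro v hv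
  by_contra hne
  obtain ⟨v1, hv1, hv1b⟩ := h1
  obtain ⟨t, ht0, ht⟩ := ne_near (fun t : ℂ => AA A (v + t • v1) b') (continuous_eval_line' A v v1 b')
    (by simpa using hne)
  have e1 := (mul_eq_zero.mp (h v hv)).resolve_right hne
  have e2 := (mul_eq_zero.mp (h (v + t • v1) (by rw [dt_add', dt_smul', hv, hv1]; ring))).resolve_right ht
  rw [dt_add', dt_smul', e1, zero_add] at e2
  exact hv1b ((mul_eq_zero.mp e2).resolve_left ht0)

theorem factor (Q : Matrix (Fin 3) (Fin 3) ℂ) (hQ : Q.IsSymm) (Y2 : Fin 3 → ℂ) (hY2 : Y2 ≠ 0)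
    (h : ∀ v, dt v Y2 = 0 → bl Q v v = 0) : ∃ Y0, ∀ v, bl Q v v = dt v Y2 * dt v Y0 := by
  obtain ⟨j, hj⟩ : ∃ j, Y2 j ≠ 0 := by
    by_contra hcon
    push Not at hcon
    exact hY2 (funext hcon)
  obtain ⟨v2, hv2⟩ : ∃ v2 : Fin 3 → ℂ, dt v2 Y2 = 1 := by
    refine ⟨(1 / Y2 j) • Pi.single j 1, ?_⟩
    rw [dt_smul']
    simp only [dt]
    simp [Pi.single_apply, hj]
  refine ⟨fun k => 2 * (∑ l, Q k l * v2 l) - bl Q v2 v2 * Y2 k, ?_⟩
  intro v
  have h1 : dt v (fun k => 2 * (∑ l, Q k l * v2 l) - bl Q v2 v2 * Y2 k) =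
      2 * bl Q v v2 - bl Q v2 v2 * dt v Y2 := by
    simp only [dt, bl, mul_sub, Finset.sum_sub_distrib, Finset.mul_sum]
    congr 1
    · refine Finset.sum_congr rfl fun k _ => Finset.sum_congr rfl fun l _ => by ring
    · refine Finset.sum_congr rfl fun k _ => ?_
      rw [Finset.sum_mul, Finset.sum_mul, Finset.mul_sum]
      try simp only [Finset.sum_mul, Finset.mul_sum]
      refine Finset.sum_congr rfl fun a _ => Finset.sum_congr rfl fun b _ => by ring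
  rw [h1]
  have h2 := h ((1 : ℂ) • v + (-(dt v Y2)) • v2) (by rw [dt_add', dt_smul', dt_smul', hv2]; ring)
  rw [bl_comb Q hQ] at h2
  linear_combination h2

theorem t_PART (hS : S_SWAP) (hB : S_BAS) (hR : S_PAR) (hI : S_INJ) (hM : S_SIM) (hQ : S_QF) :
    S_PART := by
  intro m p A hC z Y hz hr
  obtain ⟨hC', hAA, -, -, -, hss, -⟩ := hS m 2 p A hC
  obtain ⟨-, -, hdA', -, -, -, -⟩ := hS m 2 (cp p) (sw A) hC'
  obtain ⟨hM1, hM2⟩ := hM m 2 p A hC z Y hz hr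
  obtain ⟨⟨hpz, hcpY, hzA⟩, -⟩ := hz
  have hK := (hB m 2 p A hC).1
  have hz0 : z ≠ 0 := by
    intro h
    apply hpz
    have := (hB m 2 p A hC).2.1 0 z
    rw [h, smul_zero] at this
    rw [h, this, zero_pow (by omega), zero_smul]
  have hinjz := hI m 2 p A hC z hpz hzA
  have hPAR := (hR m 2 p A hC z hinjz).1
  obtain ⟨hQs, hQe, -⟩ := hQ m p A hC
  obtain ⟨hQs', hQe', -⟩ := hQ m (cp p) (sw A) hC'
  have hq : ∀ X, AA A z X = bl (QQ A z) X X := fun X => hQe z X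
  -- second root
  obtain ⟨W, hW, hWn⟩ := exists_perp z Y hz0
  have hb : dAY A W z Y ≠ 0 := by
    intro h
    obtain ⟨c, hc⟩ := hM1 W hW h
    exact hWn c hc
  rw [quad_deriv A z _ (hQs z) hq] at hb
  have hYY : bl (QQ A z) Y Y = 0 := by rw [← hq]; exact hr.2.2
  obtain ⟨Y2, hY2⟩ : ∃ Y2, Y2 = (-(bl (QQ A z) W W)) • Y + (2 * bl (QQ A z) Y W) • W := ⟨_, rfl⟩
  have hLI' : ∀ a : ℂ, a • Y ≠ Y2 := by
    intro a ha
    apply hWn ((a + bl (QQ A z) W W) / (2 * bl (QQ A z) Y W))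
    rw [hY2] at ha
    have h1 : (2 * bl (QQ A z) Y W) • W = (a + bl (QQ A z) W W) • Y := by
      rw [add_smul, ha, neg_smul]; abel
    rw [div_eq_inv_mul, mul_smul, ← h1, smul_smul, inv_mul_cancel₀ hb, one_smul]
  have hLI : LinearIndependent ℂ ![Y, Y2] := (LinearIndependent.pair_iff' hr.1).mpr hLI'
  have hY2n : Y2 ≠ 0 := by
    intro h
    exact hLI' 0 (by rw [zero_smul, h])
  have hzY2 : dt z Y2 = 0 := by
    rw [hY2, dt_add, dt_smul, dt_smul, hr.2.1, hW]; ring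
  have hAY2 : AA A z Y2 = 0 := by
    rw [hq, hY2, bl_comb _ (hQs z), hYY]; ring
  have hr2 : Root A z Y2 := ⟨hY2n, hzY2, hAY2⟩
  have hsum : AA A z (Y + Y2) ≠ 0 := by
    have h1 : Y + Y2 = (1 - bl (QQ A z) W W) • Y + (2 * bl (QQ A z) Y W) • W := by
      rw [hY2, sub_smul, one_smul, neg_smul]; abel
    rw [hq, h1, bl_comb _ (hQs z), hYY]
    have h2 : (1 - bl (QQ A z) W W) ^ 2 * 0 + 2 * (1 - bl (QQ A z) W W) * (2 * bl (QQ A z) Y W) * bl (QQ A z) Y W +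
        (2 * bl (QQ A z) Y W) ^ 2 * bl (QQ A z) W W = (2 * bl (QQ A z) Y W) ^ 2 := by ring
    rw [h2]
    exact pow_ne_zero 2 hb
  -- the values of `cp p`
  obtain ⟨c, hc⟩ := par_pair _ _ (hcpY Y hr.1 hr.2.1) (hPAR Y Y2 hr hr2)
  have hc0 : c ≠ 0 := by
    intro h
    rw [h, zero_smul] at hc
    exact hcpY Y2 hY2n hzY2 hc
  have hrel : ∀ v, dt v Y2 * AA A v Y2 = c * (dt v Y * AA A v Y) := by
    intro v
    rw [← hK, ← hK, hc, Finset.mul_sum]
    refine Finset.sum_congr rfl fun j _ => ?_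
    rw [Pi.smul_apply, smul_eq_mul]; ring
  have e1 : ∃ v1, dt v1 Y2 = 0 ∧ dt v1 Y ≠ 0 := by
    by_contra hcon
    push Not at hcon
    obtain ⟨k, hk⟩ := parl Y2 Y hY2n (fun v hv => by
      rw [dt_comm]; exact hcon v (by rw [dt_comm]; exact hv))
    have hk0 : k ≠ 0 := by
      intro h; rw [h, zero_smul] at hk; exact hr.1 hk
    apply hLI' k⁻¹
    rw [hk, smul_smul, inv_mul_cancel₀ hk0, one_smul]
  have e2 : ∃ v1, dt v1 Y = 0 ∧ dt v1 Y2 ≠ 0 := by
    by_contra hcon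
    push Not at hcon
    obtain ⟨k, hk⟩ := parl Y Y2 hr.1 (fun v hv => by
      rw [dt_comm]; exact hcon v (by rw [dt_comm]; exact hv))
    exact hLI' k hk.symm
  have f1 : ∀ v, dt v Y2 = 0 → AA A v Y = 0 := by
    apply dens A Y2 Y Y e1
    intro v hv
    have := hrel v
    rw [hv, zero_mul] at this
    exact (mul_eq_zero.mp this.symm).resolve_left hc0
  have f2 : ∀ v, dt v Y = 0 → AA A v Y2 = 0 := by
    apply dens A Y Y2 Y2 e2
    intro v hv
    rw [hrel v, hv]; ring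
  -- factorisation of `A(·, Y)`
  have hq' : ∀ v, AA A v Y = bl (QQ (sw A) Y) v v := fun v => by
    rw [← hAA]; exact hQe' Y v
  obtain ⟨Y0, hY0⟩ := factor (QQ (sw A) Y) (hQs' Y) Y2 hY2n (fun v hv => by rw [← hq']; exact f1 v hv)
  refine ⟨Y2, Y0, hr2, hLI, ?_, ⟨c, hc0, hc⟩, fun v => by rw [hq']; exact hY0 v, f2, hsum⟩
  intro hzY0
  obtain ⟨u, hu, hun⟩ := exists_perp Y z hr.1
  have h1 := hdA' u Y z
  rw [hss] at h1
  rw [quad_deriv (sw A) Y _ (hQs' Y) (fun v => hQe' Y v)] at h1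
  have h2 : bl (QQ (sw A) Y) z u = 0 := by
    have a1 := hY0 ((1 : ℂ) • z + (1 : ℂ) • u)
    rw [bl_comb _ (hQs' Y), hY0 z, hY0 u, dt_add', dt_add', dt_smul', dt_smul', dt_smul', dt_smul', hzY2, hzY0] at a1
    linear_combination (1 / 2) * a1
  rw [h2, mul_zero] at h1
  obtain ⟨k, hk⟩ := hM2 u (by rw [dt_comm]; exact hu) h1
  exact hun k hk

end H38.FH
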