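import Pool.Agent.H38.FH.PART

open MvPolynomial Filter Topology
open H95.FG H95.FH

namespace H38.FH

/-- a small root of a quadratic polynomial -/
theorem small_root (c0 c1 c2 : ℂ) (h1 : c1 ≠ 0) :
    ∃ s : ℂ, c0 + c1 * s + c2 * s ^ 2 = 0 ∧ ‖s‖ ≤ 2 * ‖c0‖ / ‖c1‖ := by
  obtain ⟨w, hw⟩ := IsAlgClosed.exists_pow_nat_eq (c1 ^ 2 - 4 * c0 * c2) (n := 2) (by norm_num)
  have key : ∀ w : ℂ, w ^ 2 = c1 ^ 2 - 4 * c0 * c2 → ‖c1‖ ≤ ‖c1 + w‖ →
      ∃ s : ℂ, c0 + c1 * s + c2 * s ^ 2 = 0 ∧ ‖s‖ ≤ 2 * ‖c0‖ / ‖c1‖ := by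
    intro w hw hle
    have hc : 0 < ‖c1‖ := norm_pos_iff.mpr h1
    have hne : c1 + w ≠ 0 := by
      intro h
      rw [h, norm_zero] at hle
      linarith
    refine ⟨-2 * c0 / (c1 + w), ?_, ?_⟩
    · field_simp
      linear_combination c0 * hw
    · rw [norm_div, norm_mul, norm_neg, Complex.norm_ofNat]
      gcongr
  rcases le_total ‖c1 - w‖ ‖c1 + w‖ with h | h
  · apply key w hw
    have h2 : ‖(c1 + w) + (c1 - w)‖ ≤ ‖c1 + w‖ + ‖c1 - w‖ := norm_add_le _ _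
    have h3 : (c1 + w) + (c1 - w) = 2 * c1 := by ring
    rw [h3, norm_mul, Complex.norm_ofNat] at h2
    linarith
  · apply key (-w) (by rw [neg_sq]; exact hw)
    have h2 : ‖(c1 + w) + (c1 - w)‖ ≤ ‖c1 + w‖ + ‖c1 - w‖ := norm_add_le _ _
    have h3 : (c1 + w) + (c1 - w) = 2 * c1 := by ring
    rw [h3, norm_mul, Complex.norm_ofNat] at h2
    rw [← sub_eq_add_neg]
    linarith

theorem cont_dt (a : Fin 3 → ℂ) : Continuous (fun Y : Fin 3 → ℂ => dt a Y) := by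
  unfold dt
  fun_prop

theorem contAt_AA (A : Q3) (f : (Fin 3 → ℂ) → (Fin 3 → ℂ)) (Y1 : Fin 3 → ℂ) (hf : ContinuousAt f Y1) :
    ContinuousAt (fun Y => AA A (f Y) Y) Y1 := by
  unfold AA
  apply (MvPolynomial.continuous_eval A).continuousAt.comp
  apply continuousAt_pi.mpr
  intro i
  rcases i with k | k
  · simp only [Sum.elim_inl]
    exact (continuousAt_pi.mp hf) k
  · simp only [Sum.elim_inr]
    exact (continuous_apply k).continuousAt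

theorem t_RO (hS : S_SWAP) (hM : S_SIM) (hQ : S_QF) : S_RO := by
  intro m p A hC z1 Y1 ε hε hz hr
  obtain ⟨hC', hAA, -, -, -, hss, -⟩ := hS m 2 p A hC
  obtain ⟨-, -, hdA', -, -, -, -⟩ := hS m 2 (cp p) (sw A) hC'
  obtain ⟨-, hM2⟩ := hM m 2 p A hC z1 Y1 hz hr
  obtain ⟨hQs', hQe', -⟩ := hQ m (cp p) (sw A) hC'
  have hq' : ∀ Y v, AA A v Y = bl (QQ (sw A) Y) v v := fun Y v => by
    rw [← hAA]; exact hQe' Y v
  obtain ⟨u, hu, hun⟩ := exists_perp Y1 z1 hr.1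
  have hb : bl (QQ (sw A) Y1) z1 u ≠ 0 := by
    intro h
    have h1 := hdA' u Y1 z1
    rw [hss, quad_deriv (sw A) Y1 _ (hQs' Y1) (fun v => hQe' Y1 v), h, mul_zero] at h1
    obtain ⟨k, hk⟩ := hM2 u (by rw [dt_comm]; exact hu) h1
    exact hun k hk
  obtain ⟨h, hh⟩ : ∃ h : Fin 3 → ℂ, dt h Y1 ≠ 0 := by
    obtain ⟨j, hj⟩ : ∃ j, Y1 j ≠ 0 := by
      by_contra hcon
      push Not at hcon
      exact hr.1 (funext hcon)
    refine ⟨Pi.single j 1, ?_⟩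
    simp only [dt]
    simpa [Pi.single_apply] using hj
  -- the projections
  let P : (Fin 3 → ℂ) → (Fin 3 → ℂ) → (Fin 3 → ℂ) := fun x Y => x - (dt x Y / dt h Y) • h
  have hPd : ∀ x Y, dt h Y ≠ 0 → dt (P x Y) Y = 0 := by
    intro x Y hY
    have : P x Y = x + (-(dt x Y / dt h Y)) • h := by simp only [P]; rw [neg_smul]; abel
    rw [this, dt_add', dt_smul']
    field_simp
    ring
  have hPc : ∀ x, ContinuousAt (P x) Y1 := by
    intro x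
    apply ContinuousAt.sub continuousAt_const
    have h9 : ContinuousAt (fun Y => dt x Y / dt h Y) Y1 :=
      (cont_dt x).continuousAt.div (cont_dt h).continuousAt hh
    exact h9.smul continuousAt_const
  have hP0 : ∀ x, dt x Y1 = 0 → P x Y1 = x := by
    intro x hx
    simp only [P]
    rw [hx, zero_div, zero_smul, sub_zero]
  have hu' : dt u Y1 = 0 := by rw [dt_comm]; exact hu
  have hx0 := hP0 z1 hr.2.1
  have hu0 := hP0 u hu'
  let c0 : (Fin 3 → ℂ) → ℂ := fun Y => AA A (P z1 Y) Y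
  let c2 : (Fin 3 → ℂ) → ℂ := fun Y => AA A (P u Y) Y
  let c1 : (Fin 3 → ℂ) → ℂ := fun Y => AA A (P z1 Y + P u Y) Y - AA A (P z1 Y) Y - AA A (P u Y) Y
  have hc0 : ContinuousAt c0 Y1 := contAt_AA A _ Y1 (hPc z1)
  have hc2 : ContinuousAt c2 Y1 := contAt_AA A _ Y1 (hPc u)
  have hc1 : ContinuousAt c1 Y1 :=
    ((contAt_AA A _ Y1 ((hPc z1).add (hPc u))).sub (contAt_AA A _ Y1 (hPc z1))).sub
      (contAt_AA A _ Y1 (hPc u))
  have hc1e : ∀ Y, c1 Y = 2 * bl (QQ (sw A) Y) (P z1 Y) (P u Y) := by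
    intro Y
    simp only [c1]
    rw [hq', hq', hq']
    have := bl_comb (QQ (sw A) Y) (hQs' Y) (P z1 Y) (P u Y) 1 1
    rw [one_smul, one_smul] at this
    rw [this]; ring
  have hexp : ∀ Y s, AA A (P z1 Y + s • P u Y) Y = c0 Y + c1 Y * s + c2 Y * s ^ 2 := by
    intro Y s
    rw [hc1e]
    simp only [c0, c2]
    rw [hq', hq', hq']
    have := bl_comb (QQ (sw A) Y) (hQs' Y) (P z1 Y) (P u Y) 1 s
    rw [one_smul] at this
    rw [this]; ring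
  have h00 : c0 Y1 = 0 := by
    simp only [c0]
    rw [hx0]; exact hr.2.2
  have h11 : c1 Y1 ≠ 0 := by
    rw [hc1e, hx0, hu0]
    exact mul_ne_zero two_ne_zero hb
  have hF : ContinuousAt (fun Y => ‖P z1 Y - z1‖ + 2 * ‖c0 Y‖ / ‖c1 Y‖ * ‖P u Y‖) Y1 := by
    apply ContinuousAt.add
    · exact ((hPc z1).sub continuousAt_const).norm
    · apply ContinuousAt.mul
      · exact (continuousAt_const.mul hc0.norm).div hc1.norm (norm_ne_zero_iff.mpr h11)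
      · exact (hPc u).norm
  have hF0 : ‖P z1 Y1 - z1‖ + 2 * ‖c0 Y1‖ / ‖c1 Y1‖ * ‖P u Y1‖ = 0 := by
    rw [hx0, h00]; simp
  have e1 : ∀ᶠ Y in 𝓝 Y1, ‖P z1 Y - z1‖ + 2 * ‖c0 Y‖ / ‖c1 Y‖ * ‖P u Y‖ < ε :=
    hF.eventually_lt continuousAt_const (by rw [hF0]; exact hε)
  have e2 : ∀ᶠ Y in 𝓝 Y1, c1 Y ≠ 0 := hc1.eventually_ne h11
  have e3 : ∀ᶠ Y in 𝓝 Y1, dt h Y ≠ 0 := (cont_dt h).continuousAt.eventually_ne hh
  have e4 : ∀ᶠ Y in 𝓝 Y1, Y ≠ 0 := continuousAt_id.eventually_ne hr.1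
  obtain ⟨δ, hδ, hall⟩ := Metric.eventually_nhds_iff.mp (e1.and (e2.and (e3.and e4)))
  refine ⟨δ, hδ, ?_⟩
  intro Y hY
  obtain ⟨f1, f2, f3, f4⟩ := hall (by rw [dist_eq_norm]; exact hY)
  obtain ⟨s, hs, hsn⟩ := small_root (c0 Y) (c1 Y) (c2 Y) f2
  refine ⟨P z1 Y + s • P u Y, ?_, f4, ?_, ?_⟩
  · have g1 : P z1 Y + s • P u Y - z1 = (P z1 Y - z1) + s • P u Y := by abel
    rw [g1]
    refine lt_of_le_of_lt (norm_add_le _ _) (lt_of_le_of_lt ?_ f1)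
    rw [norm_smul]
    gcongr
  · rw [dt_add', dt_smul', hPd z1 Y f3, hPd u Y f3]; ring
  · rw [hexp, hs]

end H38.FH
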