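import Pool.Agent.H38.FH.INJ

open MvPolynomial
open H95.FG H95.FH

namespace H38.FH

theorem par_pair {m : ℕ} (a b : Fin m → ℂ) (ha : a ≠ 0) (h : ¬ LinearIndependent ℂ ![a, b]) :
    ∃ c : ℂ, b = c • a := by
  rw [LinearIndependent.pair_iff' ha] at h
  push Not at h
  obtain ⟨c, hc⟩ := h
  exact ⟨c, hc.symm⟩

/-- one side of SIM -/
theorem sim_half {m d : ℕ} (p : P3 m) (Y U : Fin 3 → ℂ) (hYne : ev p Y ≠ 0)
    (hE : dp p Y Y = ((d : ℂ) + 1) • ev p Y) (hinj : ∀ v, dp p v Y = 0 → v = 0)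
    (hpar : ¬ LinearIndependent ℂ ![ev p Y, dp p U Y]) : ∃ c : ℂ, U = c • Y := by
  obtain ⟨c, hc⟩ := par_pair _ _ hYne hpar
  have hd : ((d : ℂ) + 1) ≠ 0 := by exact_mod_cast Nat.succ_ne_zero d
  refine ⟨c / ((d : ℂ) + 1), ?_⟩
  have h1 : dp p (U - (c / ((d : ℂ) + 1)) • Y) Y = 0 := by
    rw [dp_sub, dp_smul, hE, smul_smul, div_mul_cancel₀ _ hd, hc, sub_self]
  have h2 := hinj _ h1
  exact sub_eq_zero.mp h2

theorem t_SIM (hS : S_SWAP) (hB : S_BAS) (hI : S_INJ) (hR : S_PAR) : S_SIM := by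
  intro m d p A hC z Y hz hr
  obtain ⟨hC', hAA, hdA, -, hcc, hss, -⟩ := hS m d p A hC
  obtain ⟨hC'', hAA', hdA', -, -, -, -⟩ := hS m d (cp p) (sw A) hC'
  obtain ⟨hgood, hgr⟩ := hz
  obtain ⟨hpz, hcpY, hzA⟩ := hgood
  have hinjz := hI m d p A hC z hpz hzA
  have hYne := hcpY Y hr.1 hr.2.1
  have hinjY : ∀ v, dp (cp p) v Y = 0 → v = 0 := by
    apply hI m d (cp p) (sw A) hC' Y hYne
    obtain ⟨z', hz', hAz'⟩ := hgr Y hr.1 hr.2.1
    exact ⟨z', by rw [dt_comm]; exact hz', by rw [hAA]; exact hAz'⟩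
  have hEz := (hB m d p A hC).2.2.2.2.2.1 z
  have hEY := (hB m d (cp p) (sw A) hC').2.2.2.2.2.1 Y
  constructor
  · intro U hU hdU
    exact sim_half (d := d) (cp p) Y U hYne hEY hinjY ((hR m d p A hC z hinjz).2 Y U hr hU hdU)
  · intro u hu hdu
    have hz0 : z ≠ 0 := by
      intro h
      apply hpz
      have := (hB m d p A hC).2.1 0 z
      rw [h, smul_zero] at this
      rw [h, this, zero_pow (by omega), zero_smul]
    have h1 := (hR m d (cp p) (sw A) hC' Y hinjY).2 z u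
      ⟨hz0, by rw [dt_comm]; exact hr.2.1, by rw [hAA]; exact hr.2.2⟩ (by rw [dt_comm]; exact hu)
      (by
        have h2 := hdA' u Y z
        rw [hss] at h2
        rw [← h2]
        exact hdu)
    have h3 : cp (cp p) = p := hcc
    rw [h3] at h1
    exact sim_half (d := d) p z u hpz hEz hinjz h1

end H38.FH
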